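import Pool.Agent.MT100E.Stmts
import Pool.Agent.Helper97_MTA.LadB

/-! MT100-E, module NTZ: neat elements which commute with the commutant and normalise the
unipotents. -/

set_option autoImplicit false
set_option linter.unusedSectionVars false

namespace Pool.Agent.MT100E.H78

open Matrix Polynomial Pool.Agent.MT100 Pool.Agent.MT100G Pool.Agent.MT100A Pool.Agent.MT100D
  Pool.Agent.Helper78_MT Pool.Agent.MT100A.H78 Pool.Agent.Helper46_MT
open Pool.Agent.MT100A.H97 (prod_mem trace_int UP_lie zcl_inv)

variable {d : Type} [Fintype d] [DecidableEq d] {M : Set (Matrix d d ℂ)} {w : ℕ}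
  {E : Matrix d d ℚ} {π : ℕ → Matrix d d ℂ} {V : ℕ → Submodule ℂ (d → ℂ)}

/-- the component in the centre is given by the traces -/
theorem coef_of {s : ℕ} {e : Fin s → Matrix d d ℂ} (hP : Prim M e) {nn : Fin s → ℕ}
    (hnn : ∀ i, 0 < nn i) (htr : ∀ i, (e i).trace = (nn i : ℂ))
    (hn2 : ∀ u ∈ UP M, ∀ B ∈ Cmt M, (u * B).trace = 0)
    {D : Matrix d d ℂ} (hD : ∃ u ∈ UP M, ∃ z ∈ Zt M, D = u + z) {c : Fin s → ℂ}
    (hc : ∀ i, (D * e i).trace = c i) :
    ∃ u ∈ UP M, D = u + ∑ i, (c i / (nn i : ℂ)) • e i := by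
  obtain ⟨u, hu, z, hz, rfl⟩ := hD
  refine ⟨u, hu, ?_⟩
  obtain ⟨ζ, hζ⟩ := hP.span z hz
  congr 1
  rw [hζ]
  apply Finset.sum_congr rfl
  intro i _
  have h1 := hc i
  rw [add_mul, trace_add, hn2 u hu (e i) (hP.mem i).1, zero_add, hζ, Finset.sum_mul,
    Finset.sum_eq_single i, smul_mul_assoc, hP.idem, trace_smul, htr, smul_eq_mul] at h1
  · congr 1
    rw [eq_div_iff (by exact_mod_cast (hnn i).ne')]
    exact h1
  · intro j _ hj
    rw [smul_mul_assoc, hP.orth j i hj, smul_zero]
  · intro h
    exact absurd (Finset.mem_univ i) h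

theorem nil_lg {U : Matrix d d ℂ} (hU : IsNilpotent (U - 1)) {e : Matrix d d ℂ}
    (he : U * e = e * U) : (lg U * e).trace = 0 := by
  unfold lg
  rw [Finset.sum_mul, trace_sum]
  apply Finset.sum_eq_zero
  intro k _
  rw [smul_mul_assoc, trace_smul]
  have hc : Commute ((U - 1) ^ (k + 1)) e := by
    apply Commute.pow_left
    unfold Commute SemiconjBy
    rw [sub_mul, mul_sub, he, one_mul, mul_one]
  rw [(isNilpotent_trace_of_isNilpotent (hc.isNilpotent_mul_right (hU.pow_succ k))).eq_zero, smul_zero]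

theorem lg_comm {U B : Matrix d d ℂ} (h : U * B = B * U) : lg U * B = B * lg U := by
  unfold lg
  rw [Finset.sum_mul, Finset.mul_sum]
  apply Finset.sum_congr rfl
  intro k _
  have hc : Commute ((U - 1) ^ (k + 1)) B := by
    apply Commute.pow_left
    unfold Commute SemiconjBy
    rw [sub_mul, mul_sub, h, one_mul, mul_one]
  rw [smul_mul_assoc, mul_smul_comm, hc.eq]

theorem pow_mem' {G : Set (Matrix d d ℂ)} (hmul : ∀ a ∈ G, ∀ b ∈ G, a * b ∈ G)
    (h1 : (1 : Matrix d d ℂ) ∈ G) {g : Matrix d d ℂ} (hg : g ∈ G) (i : ℕ) : g ^ i ∈ G := by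
  induction i with
  | zero => rw [pow_zero]; exact h1
  | succ i ih => rw [pow_succ]; exact hmul _ ih _ hg

/-- NTZ -/
theorem ntz (jox : JoxStmt) (log : LogStmt) (cur : CurStmt) (nfz : NfzStmt) (dte : DteStmt) :
    NtzStmt := by
  intro d _ _ M w E V π hC s e hP nn hnn htr h hu hn hW hB
  obtain ⟨hn1, hn2⟩ := nfz d M w E V π hC
  obtain ⟨r, n, p, m, x, U, hidem, horth, hsum, hx, hU, hcomm, heq, hst, hind, hdc⟩ := jox d h hu hn
  -- commutation with the idempotents
  have hpB : ∀ B ∈ Cmt M, ∀ a, p a * B = B * p a := fun B hB' a => (hdc B (hB B hB')).1 a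
  have hUB : ∀ B ∈ Cmt M, U * B = B * U := fun B hB' => (hdc B (hB B hB')).2
  have hpe : ∀ a i, p a * e i = e i * p a := fun a i => hpB _ (hP.mem i).1 a
  have hpe2 : ∀ a i, (p a * e i) * (p a * e i) = p a * e i := by
    intro a i
    rw [hpe, Matrix.mul_assoc, ← Matrix.mul_assoc (p a), hpe, Matrix.mul_assoc (e i) (p a),
      hidem, ← Matrix.mul_assoc, hP.idem]
  choose k hk using fun a i => trace_int (hpe2 a i)
  -- the infinitesimal generators
  obtain ⟨D, hD⟩ : ∃ D : Fin r → Matrix d d ℂ, D = fun j => ∑ a, (m j a : ℂ) • p a := ⟨_, rfl⟩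
  obtain ⟨c, hc⟩ : ∃ c : Fin r → Fin s → ℤ, c = fun j i => ∑ a, m j a * (k a i : ℤ) := ⟨_, rfl⟩
  have hDe : ∀ j i, (D j * e i).trace = ((c j i : ℤ) : ℂ) := by
    intro j i
    rw [hD, hc]
    simp only
    rw [Finset.sum_mul, trace_sum]
    push_cast
    apply Finset.sum_congr rfl
    intro a _
    rw [smul_mul_assoc, trace_smul, hk, smul_eq_mul]
  have hDu : ∀ j, ∃ u ∈ UP M, D j = u + ∑ i, ((c j i : ℂ) / (nn i : ℂ)) • e i := by
    intro j
    refine coef_of hP hnn htr hn2 (hn1 (D j) ?_ ?_) (fun i => hDe j i)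
    · rw [hD]
      exact (hst (UP M) hW).2 j
    · intro B hB'
      rw [hD]
      simp only
      rw [Finset.sum_mul, Finset.mul_sum]
      apply Finset.sum_congr rfl
      intro a _
      rw [smul_mul_assoc, mul_smul_comm, hpB B hB' a]
  have hlU : lg U ∈ UP M := by
    obtain ⟨u, hu', hu2⟩ := coef_of hP hnn htr hn2
      (hn1 (lg U) (log d U hU (UP M) (hst (UP M) hW).1) (fun B hB' => lg_comm (hUB B hB')))
      (c := fun _ => 0) (fun i => nil_lg hU (hUB _ (hP.mem i).1))
    rw [hu2]
    simpa using hu'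
  have hUG : ∀ G : Set (Matrix d d ℂ), (∀ a ∈ G, ∀ b ∈ G, a * b ∈ G) → (1 : Matrix d d ℂ) ∈ G →
      (∀ g ∈ zclosure ℂ ℂ G, g ∈ G) → (∀ u ∈ Uni M, u ∈ G) → U ∈ G := fun G hmul h1 hcl hun =>
    hcl _ ((cur d G h1).2 U hU (UP_lie hmul hun hlU))
  have hdete : ∀ i, dete h (e i) = ∏ j, x j ^ c j i := by
    intro i
    have h1 := dte d n p (fun a => ∏ j, x j ^ m j a) U (e i) hidem horth hsum hU hcomm (hP.idem i)
      (fun a => hpe a i) (hUB _ (hP.mem i).1) (fun a => k a i) (fun a => hk a i)
    rw [← heq] at h1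
    rw [h1, hc]
    simp only
    have h2 : ∀ a, (∏ j, x j ^ m j a) ^ k a i = ∏ j, x j ^ (m j a * (k a i : ℤ)) := by
      intro a
      rw [← Finset.prod_pow]
      apply Finset.prod_congr rfl
      intro j _
      rw [_root_.zpow_mul, _root_.zpow_natCast]
    rw [Finset.prod_congr rfl fun a _ => h2 a, Finset.prod_comm]
    apply Finset.prod_congr rfl
    intro j _
    have h3 : ∀ t : Finset (Fin n), x j ^ (∑ a ∈ t, m j a * (k a i : ℤ)) =
        ∏ a ∈ t, x j ^ (m j a * (k a i : ℤ)) := by
      intro t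
      classical
      induction t using Finset.induction_on with
      | empty => simp
      | insert a t ha ih => rw [Finset.sum_insert ha, Finset.prod_insert ha, _root_.zpow_add₀ (hx j), ih]
    rw [h3]
  refine ⟨⟨r, x, c, hx, hind, hdete, ?_⟩, ?_⟩
  · -- (a)
    intro G hmul h1 hcl hun hlie
    have hcG : ∀ j, ∑ a, (x j ^ m j a) • p a ∈ G := by
      intro j
      refine hcl _ ((cur d G h1).1 n p (m j) hidem horth hsum ?_ (x j) (hx j))
      obtain ⟨u, hu', hu2⟩ := hDu j
      have h2 : D j ∈ lieOf G := by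
        rw [hu2]
        exact Submodule.add_mem _ (UP_lie hmul hun hu') (hlie j)
      rw [hD] at h2
      exact h2
    rw [heq]
    exact hmul _ (prod_mem hmul h1 hidem horth hsum (fun j a => x j ^ m j a) hcG Finset.univ) _
      (hUG G hmul h1 hcl hun)
  · -- (b)
    obtain ⟨N, hN⟩ : ∃ N : ℕ, N = ∏ i, nn i := ⟨_, rfl⟩
    have hNpos : 0 < N := by
      rw [hN]
      exact Finset.prod_pos fun i _ => hnn i
    have hdiv : ∀ i, ∃ b : ℕ, N = b * nn i := by
      intro i
      obtain ⟨b, hb⟩ := Finset.dvd_prod_of_mem nn (Finset.mem_univ i)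
      exact ⟨b, by rw [hN, hb, mul_comm]⟩
    choose b hb using hdiv
    obtain ⟨ζ, hζ⟩ : ∃ ζ : Fin s → ℂ, ζ = fun i => ∏ j, x j ^ ((b i : ℤ) * c j i) := ⟨_, rfl⟩
    have hζ0 : ∀ i, ζ i ≠ 0 := by
      intro i
      rw [hζ]
      exact Finset.prod_ne_zero_iff.2 fun j _ => zpow_ne_zero _ (hx j)
    refine ⟨N, ζ, hNpos, hζ0, ?_, ?_⟩
    · intro i
      rw [hdete, hζ]
      simp only
      rw [← Finset.prod_pow, ← Finset.prod_pow]
      apply Finset.prod_congr rfl
      intro j _
      rw [← _root_.zpow_natCast, ← _root_.zpow_natCast, ← _root_.zpow_mul, ← _root_.zpow_mul, hb i]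
      congr 1
      push_cast
      ring
    · intro G hmul h1 hcl hun hG
      -- the refined system of idempotents
      obtain ⟨q, hq⟩ : ∃ q : Fin (n * s) → Matrix d d ℂ,
        q = fun t => p (finProdFinEquiv.symm t).1 * e (finProdFinEquiv.symm t).2 := ⟨_, rfl⟩
      have hqsum : ∀ f : Fin n → Fin s → ℂ,
          ∑ t, f (finProdFinEquiv.symm t).1 (finProdFinEquiv.symm t).2 • q t =
            ∑ a, ∑ i, f a i • (p a * e i) := by
        intro f
        rw [← Fintype.sum_prod_type', hq]
        exact (Equiv.sum_comp finProdFinEquiv.symm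
          (fun t : Fin n × Fin s => f t.1 t.2 • (p t.1 * e t.2)))
      have hqi : ∀ t, q t * q t = q t := by
        intro t
        rw [hq]
        exact hpe2 _ _
      have hqo : ∀ t t', t ≠ t' → q t * q t' = 0 := by
        intro t t' hne
        rw [hq]
        simp only
        obtain ⟨⟨a, i⟩, hai⟩ : ∃ y, y = finProdFinEquiv.symm t := ⟨_, rfl⟩
        obtain ⟨⟨a', i'⟩, hai'⟩ : ∃ y, y = finProdFinEquiv.symm t' := ⟨_, rfl⟩
        rw [← hai, ← hai']
        have h2 : (p a * e i) * (p a' * e i') = (p a * p a') * (e i * e i') := by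
          rw [Matrix.mul_assoc, ← Matrix.mul_assoc (e i), ← hpe a' i, Matrix.mul_assoc (p a'),
            ← Matrix.mul_assoc (p a)]
        simp only
        rw [h2]
        by_cases haa : a = a'
        · by_cases hii : i = i'
          · exfalso
            apply hne
            apply finProdFinEquiv.symm.injective
            rw [← hai, ← hai', haa, hii]
          · rw [hP.orth i i' hii, mul_zero]
        · rw [horth a a' haa, zero_mul]
      have hq1 : ∑ t, q t = 1 := by
        have h2 := hqsum (fun _ _ => 1)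
        simp only [one_smul] at h2
        rw [h2]
        simp_rw [← Finset.mul_sum]
        rw [hP.sum]
        simpa using hsum
      -- the cocharacters
      have hco : ∀ j, ∑ t, (x j ^ ((N : ℤ) * m j (finProdFinEquiv.symm t).1 -
          (b (finProdFinEquiv.symm t).2 : ℤ) * c j (finProdFinEquiv.symm t).2)) • q t ∈ G := by
        intro j
        refine hcl _ ((cur d G h1).1 (n * s) q (fun t => (N : ℤ) * m j (finProdFinEquiv.symm t).1 -
          (b (finProdFinEquiv.symm t).2 : ℤ) * c j (finProdFinEquiv.symm t).2) hqi hqo hq1 ?_ (x j)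
          (hx j))
        apply UP_lie hmul hun
        obtain ⟨u, hu', hu2⟩ := hDu j
        have h2 := hqsum (fun a i => (((N : ℤ) * m j a - (b i : ℤ) * c j i : ℤ) : ℂ))
        rw [h2]
        have h3 : ∑ a, ∑ i, (((N : ℤ) * m j a - (b i : ℤ) * c j i : ℤ) : ℂ) • (p a * e i) =
            (N : ℂ) • u := by
          have h4 : ∀ a i, (((N : ℤ) * m j a - (b i : ℤ) * c j i : ℤ) : ℂ) • (p a * e i) =
              (N : ℂ) • (((m j a : ℂ) • p a) * e i) - p a * (((b i : ℂ) * (c j i : ℂ)) • e i) := by
            intro a i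
            rw [smul_mul_assoc, mul_smul_comm, smul_smul, ← sub_smul]
            push_cast
            rfl
          simp_rw [h4, Finset.sum_sub_distrib, ← Finset.smul_sum, ← Finset.mul_sum, hP.sum, mul_one]
          rw [← Finset.sum_mul, hsum, one_mul]
          have h5 : ∑ a, (m j a : ℂ) • p a = D j := by rw [hD]
          rw [h5, hu2, smul_add, Finset.smul_sum]
          have h6 : ∀ i, (N : ℂ) • (((c j i : ℂ) / (nn i : ℂ)) • e i) =
              ((b i : ℂ) * (c j i : ℂ)) • e i := by
            intro i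
            rw [smul_smul]
            congr 1
            have h7 : (nn i : ℂ) ≠ 0 := by exact_mod_cast (hnn i).ne'
            rw [show (N : ℂ) = (b i : ℂ) * (nn i : ℂ) by rw [hb i]; push_cast; ring]
            field_simp
          rw [Finset.sum_congr rfl fun i _ => h6 i, add_sub_cancel_right]
        rw [h3]
        exact Submodule.smul_mem _ _ hu'
      have hg1 := prod_mem hmul h1 hqi hqo hq1 (fun j t =>
        x j ^ ((N : ℤ) * m j (finProdFinEquiv.symm t).1 -
          (b (finProdFinEquiv.symm t).2 : ℤ) * c j (finProdFinEquiv.symm t).2)) hco Finset.univ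
      have hg2 := hqsum (fun a i => ∏ j, x j ^ ((N : ℤ) * m j a - (b i : ℤ) * c j i))
      beta_reduce at hg1 hg2
      rw [hg2] at hg1
      -- powers of `h`
      have hpow : ∀ i : ℕ, h ^ i = (∑ a, ((∏ j, x j ^ m j a) ^ i) • p a) * U ^ i := by
        intro i
        induction i with
        | zero =>
          simp only [pow_zero, one_smul, hsum, mul_one]
        | succ i ih =>
          have hc1 : U ^ i * (∑ a, (∏ j, x j ^ m j a) • p a) =
              (∑ a, (∏ j, x j ^ m j a) • p a) * U ^ i := by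
            have hc2 : Commute (∑ a, (∏ j, x j ^ m j a) • p a) U := by
              unfold Commute SemiconjBy
              rw [Finset.sum_mul, Finset.mul_sum]
              apply Finset.sum_congr rfl
              intro a _
              rw [smul_mul_assoc, mul_smul_comm, hcomm]
            exact (hc2.pow_right i).eq.symm
          rw [pow_succ, ih]
          conv_lhs => rw [heq]
          rw [Matrix.mul_assoc, ← Matrix.mul_assoc (U ^ i), hc1, Matrix.mul_assoc _ (U ^ i),
            ← pow_succ, ← Matrix.mul_assoc]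
          congr 1
          rw [Finset.sum_mul]
          apply Finset.sum_congr rfl
          intro a _
          rw [Finset.mul_sum, Finset.sum_eq_single a]
          · rw [smul_mul_smul_comm, hidem, pow_succ]
          · intro b _ hb
            rw [smul_mul_smul_comm, horth a b (Ne.symm hb), smul_zero]
          · intro h
            exact absurd (Finset.mem_univ a) h
      -- inverses
      have hgu : ∀ g ∈ G, IsUnit g.det → g⁻¹ ∈ G := by
        intro g hg hgd
        apply hcl
        exact zcl_inv hmul h1 ⟨hgd, fun y hy => hy g hg⟩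
      have hsplit : (∑ a, ∑ i, (∏ j, x j ^ ((N : ℤ) * m j a - (b i : ℤ) * c j i)) • (p a * e i)) *
          U ^ N = h ^ N * ∑ i, (ζ i)⁻¹ • e i := by
        have hUe : ∀ i, U ^ N * e i = e i * U ^ N := by
          intro i
          have : Commute U (e i) := hUB _ (hP.mem i).1
          exact (this.pow_left N).eq
        rw [hpow N, Matrix.mul_assoc]
        have h2 : U ^ N * ∑ i, (ζ i)⁻¹ • e i = (∑ i, (ζ i)⁻¹ • e i) * U ^ N := by
          rw [Finset.mul_sum, Finset.sum_mul]
          apply Finset.sum_congr rfl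
          intro i _
          rw [mul_smul_comm, smul_mul_assoc, hUe]
        rw [h2, ← Matrix.mul_assoc]
        congr 1
        rw [Finset.sum_mul]
        apply Finset.sum_congr rfl
        intro a _
        rw [Finset.mul_sum]
        apply Finset.sum_congr rfl
        intro i _
        rw [smul_mul_smul_comm]
        congr 1
        rw [hζ]
        simp only
        rw [← Finset.prod_pow, ← Finset.prod_inv_distrib, ← Finset.prod_mul_distrib]
        apply Finset.prod_congr rfl
        intro j _
        rw [_root_.zpow_sub₀ (hx j), div_eq_mul_inv, ← _root_.zpow_natCast (x j ^ m j a),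
          ← _root_.zpow_mul]
        congr 2
        ring
      have hprod : h ^ N * ∑ i, (ζ i)⁻¹ • e i ∈ G := by
        rw [← hsplit]
        exact hmul _ hg1 _ (pow_mem' hmul h1 (hUG G hmul h1 hcl hun) N)
      have hhN : IsUnit (h ^ N).det := by
        rw [det_pow]
        exact hu.pow N
      have hz1 : ∑ i, (ζ i)⁻¹ • e i ∈ G := by
        have h2 := hmul _ (hgu _ (pow_mem' hmul h1 hG N) hhN) _ hprod
        rwa [← Matrix.mul_assoc, nonsing_inv_mul _ hhN, one_mul] at h2
      have hzz : (∑ i, (ζ i)⁻¹ • e i) * (∑ i, ζ i • e i) = 1 := by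
        rw [← hP.sum, Finset.sum_mul]
        apply Finset.sum_congr rfl
        intro i _
        rw [Finset.mul_sum, Finset.sum_eq_single i]
        · rw [smul_mul_smul_comm, hP.idem, inv_mul_cancel₀ (hζ0 i), one_smul]
        · intro j _ hj
          rw [smul_mul_smul_comm, hP.orth i j (Ne.symm hj), smul_zero]
        · intro h
          exact absurd (Finset.mem_univ i) h
      have hzi : (∑ i, (ζ i)⁻¹ • e i)⁻¹ = ∑ i, ζ i • e i := inv_eq_right_inv hzz
      rw [← hzi]
      apply hgu _ hz1
      have h2 := congrArg Matrix.det hzz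
      rw [det_mul, det_one] at h2
      exact IsUnit.of_mul_eq_one _ h2

end Pool.Agent.MT100E.H78
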