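import Pool.Agent.MT100E.Stmts
import Pool.Agent.Helper78_MTA.Irr
import Mathlib.RingTheory.Artinian.Module
import Mathlib.FieldTheory.IsAlgClosed.Basic

/-! MT100-E, PRI: the centre of the commutant is spanned by orthogonal idempotents. -/

set_option autoImplicit false
set_option linter.unusedSectionVars false

namespace Pool.Agent.MT100E.H78

open Matrix Polynomial Pool.Agent.MT100 Pool.Agent.MT100G Pool.Agent.MT100A Pool.Agent.Helper78_MT
open Pool.Agent.MT100A.H78 Pool.Agent.Helper46_MT Pool.Agent.Helper3_MT Pool.Agent.MT100G.H46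
open scoped ComplexOrder

variable {d : Type} [Fintype d] [DecidableEq d] {M : Set (Matrix d d ℂ)}

theorem map_mul' (X Y : Matrix d d ℂ) : (X * Y).map (starRingEnd ℂ) =
    X.map (starRingEnd ℂ) * Y.map (starRingEnd ℂ) := Matrix.map_mul

theorem map_star2 (X : Matrix d d ℂ) : (X.map (starRingEnd ℂ)).map (starRingEnd ℂ) = X := by
  ext i j
  simp

/-! ### Complex conjugation -/

theorem nilP_star (hr : ∀ γ ∈ M, γ.map (starRingEnd ℂ) = γ) {X : Matrix d d ℂ} (hX : X ∈ nilP M) :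
    X.map (starRingEnd ℂ) ∈ nilP M := by
  refine ⟨?_, fun s => ?_⟩
  · obtain ⟨k, hk⟩ := hX.1
    refine ⟨k, ?_⟩
    have := (map_pow (starRingEnd ℂ).mapMatrix X k).symm
    rw [RingHom.mapMatrix_apply, hk, map_zero] at this
    exact this
  · rw [ue_star]
    exact zc_star hr (hX.2 _)

theorem cmt_star (hr : ∀ γ ∈ M, γ.map (starRingEnd ℂ) = γ) {B : Matrix d d ℂ} (hB : B ∈ Cmt M) :
    B.map (starRingEnd ℂ) ∈ Cmt M := by
  intro X hX
  have h1 := hB _ (nilP_star hr hX)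
  have h2 := congrArg (fun Y : Matrix d d ℂ => Y.map (starRingEnd ℂ)) h1
  simp only [map_mul', map_star2] at h2
  exact h2

theorem zt_star (hr : ∀ γ ∈ M, γ.map (starRingEnd ℂ) = γ) {B : Matrix d d ℂ} (hB : B ∈ Zt M) :
    B.map (starRingEnd ℂ) ∈ Zt M := by
  refine ⟨cmt_star hr hB.1, fun X hX => ?_⟩
  have h1 := hB.2 _ (cmt_star hr hX)
  have h2 := congrArg (fun Y : Matrix d d ℂ => Y.map (starRingEnd ℂ)) h1
  simp only [map_mul', map_star2] at h2
  exact h2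

/-! ### The adjoint for a form -/

/-- the adjoint -/
noncomputable def adjF (F B : Matrix d d ℂ) : Matrix d d ℂ := F⁻¹ * Bᵀ * F

theorem adj_mul {F : Matrix d d ℂ} (hF : IsUnit F.det) (A B : Matrix d d ℂ) :
    adjF F (A * B) = adjF F B * adjF F A := by
  unfold adjF
  rw [Matrix.transpose_mul]
  calc F⁻¹ * (Bᵀ * Aᵀ) * F = F⁻¹ * Bᵀ * (1 * (Aᵀ * F)) := by
        simp only [Matrix.one_mul, Matrix.mul_assoc]
    _ = F⁻¹ * Bᵀ * ((F * F⁻¹) * (Aᵀ * F)) := by rw [Matrix.mul_nonsing_inv F hF]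
    _ = _ := by simp only [Matrix.mul_assoc]

theorem adj_adj {F : Matrix d d ℂ} (hF : IsUnit F.det) {c : ℂ} (hc : c * c = 1) (hs : Fᵀ = c • F)
    (B : Matrix d d ℂ) : adjF F (adjF F B) = B := by
  have hFi : (F⁻¹)ᵀ = c • F⁻¹ := by
    rw [Matrix.transpose_nonsing_inv, hs]
    apply Matrix.inv_eq_right_inv
    rw [smul_mul_smul_comm, hc, one_smul, Matrix.mul_nonsing_inv F hF]
  unfold adjF
  rw [Matrix.transpose_mul, Matrix.transpose_mul, Matrix.transpose_transpose, hFi, hs]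
  simp only [Matrix.smul_mul, Matrix.mul_smul, smul_smul, hc, one_smul]
  calc F⁻¹ * (F * (B * F⁻¹)) * F = (F⁻¹ * F) * B * (F⁻¹ * F) := by simp only [Matrix.mul_assoc]
    _ = B := by rw [Matrix.nonsing_inv_mul F hF, Matrix.one_mul, Matrix.mul_one]

theorem cmt_adj {F : Matrix d d ℂ} (hF : IsUnit F.det) (hiso : ∀ X ∈ nilP M, Xᵀ * F + F * X = 0)
    {B : Matrix d d ℂ} (hB : B ∈ Cmt M) : adjF F B ∈ Cmt M := by
  intro X hX
  have h1 := hiso X hX
  have h2 : F * X = -(Xᵀ * F) := eq_neg_of_add_eq_zero_right h1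
  have h3 : Xᵀ * Bᵀ = Bᵀ * Xᵀ := by rw [← Matrix.transpose_mul, ← Matrix.transpose_mul, hB X hX]
  have h4 : F⁻¹ * Xᵀ = -(X * F⁻¹) := by
    have h5 : Xᵀ * F = -(F * X) := eq_neg_of_add_eq_zero_left h1
    calc F⁻¹ * Xᵀ = F⁻¹ * (Xᵀ * F) * F⁻¹ := by
          rw [Matrix.mul_assoc, Matrix.mul_assoc, Matrix.mul_nonsing_inv F hF, Matrix.mul_one]
      _ = -((F⁻¹ * F) * X * F⁻¹) := by
          rw [h5, Matrix.mul_neg, Matrix.neg_mul]
          simp only [Matrix.mul_assoc]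
      _ = _ := by rw [Matrix.nonsing_inv_mul F hF, Matrix.one_mul]
  unfold adjF
  calc F⁻¹ * Bᵀ * F * X = F⁻¹ * Bᵀ * (F * X) := by simp only [Matrix.mul_assoc]
    _ = -(F⁻¹ * (Bᵀ * Xᵀ) * F) := by rw [h2]; simp only [Matrix.mul_neg, Matrix.mul_assoc]
    _ = -(F⁻¹ * Xᵀ * Bᵀ * F) := by rw [← h3]; simp only [Matrix.mul_assoc]
    _ = _ := by rw [h4]; simp only [Matrix.neg_mul, neg_neg, Matrix.mul_assoc]

theorem zt_adj {F : Matrix d d ℂ} (hF : IsUnit F.det) {c : ℂ} (hc : c * c = 1) (hs : Fᵀ = c • F)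
    (hiso : ∀ X ∈ nilP M, Xᵀ * F + F * X = 0) {B : Matrix d d ℂ} (hB : B ∈ Zt M) :
    adjF F B ∈ Zt M := by
  refine ⟨cmt_adj hF hiso hB.1, fun X hX => ?_⟩
  have h1 := hB.2 _ (cmt_adj hF hiso hX)
  have h2 := congrArg (adjF F) h1
  rw [adj_mul hF, adj_mul hF, adj_adj hF hc hs] at h2
  exact h2.symm

/-! ### The algebra -/

/-- the centre of the commutant as an algebra -/
def ZA (M : Set (Matrix d d ℂ)) : Subalgebra ℂ (Matrix d d ℂ) where
  carrier := Zt M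
  mul_mem' := by
    intro a b ha hb
    refine ⟨fun X hX => ?_, fun B hB => ?_⟩
    · rw [Matrix.mul_assoc, hb.1 X hX, ← Matrix.mul_assoc, ha.1 X hX, Matrix.mul_assoc]
    · rw [Matrix.mul_assoc, hb.2 B hB, ← Matrix.mul_assoc, ha.2 B hB, Matrix.mul_assoc]
  add_mem' := by
    intro a b ha hb
    refine ⟨fun X hX => ?_, fun B hB => ?_⟩
    · rw [Matrix.add_mul, Matrix.mul_add, ha.1 X hX, hb.1 X hX]
    · rw [Matrix.add_mul, Matrix.mul_add, ha.2 B hB, hb.2 B hB]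
  algebraMap_mem' := by
    intro c
    refine ⟨fun X _ => ?_, fun B _ => ?_⟩
    · exact (Algebra.commutes c X)
    · exact (Algebra.commutes c B)

theorem mem_ZA {z : Matrix d d ℂ} : z ∈ ZA M ↔ z ∈ Zt M := Iff.rfl

noncomputable instance : CommRing (ZA M) :=
  { (inferInstance : Ring (ZA M)) with
    mul_comm := fun a b => Subtype.ext (a.2.2 b.1 b.2.1) }

theorem pri_of (hred : ∀ z ∈ Zt M, z * z = 0 → z = 0) :
    ∃ (s : ℕ) (e : Fin s → Matrix d d ℂ), Prim M e := by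
  classical
  have hfin : Module.Finite ℂ (ZA M) := inferInstance
  have hart : IsArtinianRing (ZA M) := IsArtinianRing.of_finite ℂ (ZA M)
  have hrd : IsReduced (ZA M) := by
    rw [isReduced_iff_pow_one_lt 2 (by norm_num)]
    intro x hx
    rw [pow_two] at hx
    apply Subtype.ext
    exact hred x.1 x.2 (congrArg Subtype.val hx)
  obtain ⟨φ, hφ⟩ : ∃ φ : ZA M ≃ₐ[ZA M] ∀ I : MaximalSpectrum (ZA M), ZA M ⧸ I.asIdeal,
    ∀ x I, φ x I = Ideal.Quotient.mk I.asIdeal x := ⟨IsArtinianRing.equivPi (ZA M), fun _ _ => rfl⟩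
  have hft : Finite (MaximalSpectrum (ZA M)) := inferInstance
  obtain ⟨s, ⟨σ⟩⟩ := Finite.exists_equiv_fin (MaximalSpectrum (ZA M))
  set f : MaximalSpectrum (ZA M) → ZA M := fun I => φ.symm (Pi.single I 1) with hf
  have hφf : ∀ I, φ (f I) = Pi.single I 1 := fun I => φ.apply_symm_apply _
  have hidem : ∀ I, f I * f I = f I := by
    intro I
    apply φ.injective
    rw [map_mul, hφf, ← Pi.single_mul, one_mul]
  have horth : ∀ I J, I ≠ J → f I * f J = 0 := by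
    intro I J h
    apply φ.injective
    rw [map_mul, hφf, hφf, map_zero]
    funext L
    rw [Pi.mul_apply, Pi.zero_apply]
    by_cases h1 : L = I
    · rw [Pi.single_eq_of_ne (i := J) (show L ≠ J by rw [h1]; exact h), mul_zero]
    · rw [Pi.single_eq_of_ne h1, zero_mul]
  have hne : ∀ I, f I ≠ 0 := by
    intro I h
    have h1 := hφf I
    rw [h, map_zero] at h1
    have h2 := congrFun h1 I
    rw [Pi.single_eq_same, Pi.zero_apply] at h2
    have : Nontrivial (ZA M ⧸ I.asIdeal) := Ideal.Quotient.nontrivial_iff.2 I.isMaximal.ne_top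
    exact zero_ne_one h2
  let _ : Fintype (MaximalSpectrum (ZA M)) := Fintype.ofFinite _
  have hsum : ∑ I, f I = 1 := by
    apply φ.injective
    rw [map_sum, map_one]
    simp only [hφf]
    exact Finset.univ_sum_single (1 : ∀ I : MaximalSpectrum (ZA M), ZA M ⧸ I.asIdeal)
  have hspan : ∀ z : ZA M, ∃ c : MaximalSpectrum (ZA M) → ℂ, z = ∑ I, algebraMap ℂ (ZA M) (c I) * f I := by
    intro z
    have h1 : ∀ I : MaximalSpectrum (ZA M), ∃ c : ℂ,
        Ideal.Quotient.mk I.asIdeal z = Ideal.Quotient.mk I.asIdeal (algebraMap ℂ (ZA M) c) := by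
      intro I
      have hmx : I.asIdeal.IsMaximal := I.isMaximal
      have hdom : IsDomain (ZA M ⧸ I.asIdeal) := Ideal.Quotient.isDomain _
      have hfq : Module.Finite ℂ (ZA M ⧸ I.asIdeal) := inferInstance
      have hint : Algebra.IsIntegral ℂ (ZA M ⧸ I.asIdeal) := inferInstance
      obtain ⟨c, hc⟩ := (IsAlgClosed.algebraMap_bijective_of_isIntegral (k := ℂ)
        (K := ZA M ⧸ I.asIdeal)).2 (Ideal.Quotient.mk I.asIdeal z)
      exact ⟨c, hc.symm⟩
    choose c hc using h1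
    refine ⟨c, ?_⟩
    apply φ.injective
    funext J
    rw [hφ, hc, map_sum, Finset.sum_apply, Finset.sum_eq_single J]
    · rw [map_mul, Pi.mul_apply, hφf, Pi.single_eq_same, mul_one, hφ]
    · intro I _ hI
      rw [map_mul, Pi.mul_apply, hφf, Pi.single_eq_of_ne (Ne.symm hI), mul_zero]
    · intro h
      exact absurd (Finset.mem_univ J) h
  refine ⟨s, fun i => (f (σ.symm i)).1, ?_, ?_, ?_, ?_, ?_, ?_⟩
  · intro i
    exact congrArg Subtype.val (hidem (σ.symm i))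
  · intro i j h
    exact congrArg Subtype.val (horth (σ.symm i) (σ.symm j) fun h1 => h (σ.symm.injective h1))
  · rw [Equiv.sum_comp σ.symm (fun I => (f I).1)]
    have h1 := congrArg (Subalgebra.val (ZA M)) hsum
    rw [map_sum, map_one] at h1
    exact h1
  · intro i h
    exact hne (σ.symm i) (Subtype.ext h)
  · intro i
    exact (f (σ.symm i)).2
  · intro z hz
    obtain ⟨c, hc⟩ := hspan ⟨z, hz⟩
    refine ⟨fun i => c (σ.symm i), ?_⟩
    rw [Equiv.sum_comp σ.symm (fun I => c I • (f I).1)]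
    have h1 := congrArg (Subalgebra.val (ZA M)) hc
    rw [map_sum] at h1
    refine h1.trans (Finset.sum_congr rfl fun I _ => ?_)
    rw [map_mul]
    exact (Algebra.smul_def (c I) ((f I).1)).symm

/-! ### Positivity -/

theorem red_of {G : Matrix d d ℂ} (hG : G.PosDef) {z y : Matrix d d ℂ} (hy : G * y = zᴴ * G)
    (hc : z * y = y * z) (hz : z * z = 0) : z = 0 := by
  obtain ⟨S, hS, hSM⟩ := posdef_fac hG
  have hSd : IsUnit S.det := (isUnit_iff_isUnit_det S).1 hS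
  have hSi : S * S⁻¹ = 1 := mul_nonsing_inv S hSd
  have hSi' : S⁻¹ * S = 1 := nonsing_inv_mul S hSd
  have e1 : (S⁻¹)ᴴ * Sᴴ = 1 := by rw [← conjTranspose_mul, hSi, conjTranspose_one]
  rw [hSM] at hy
  obtain ⟨a, ha⟩ : ∃ a, a = S * z * S⁻¹ := ⟨_, rfl⟩
  obtain ⟨b, hb⟩ : ∃ b, b = S * y * S⁻¹ := ⟨_, rfl⟩
  have hab : aᴴ = b := by
    rw [ha, hb, conjTranspose_mul, conjTranspose_mul]
    calc (S⁻¹)ᴴ * (zᴴ * Sᴴ) = (S⁻¹)ᴴ * (zᴴ * (Sᴴ * S)) * S⁻¹ := by
          rw [← Matrix.mul_assoc zᴴ, Matrix.mul_assoc _ _ S⁻¹, Matrix.mul_assoc (zᴴ * Sᴴ), hSi,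
            Matrix.mul_one]
      _ = (S⁻¹)ᴴ * (Sᴴ * S * y) * S⁻¹ := by rw [hy]
      _ = ((S⁻¹)ᴴ * Sᴴ) * S * y * S⁻¹ := by simp only [Matrix.mul_assoc]
      _ = _ := by rw [e1, Matrix.one_mul]
  have hcj : ∀ X Y : Matrix d d ℂ, S * X * S⁻¹ * (S * Y * S⁻¹) = S * (X * Y) * S⁻¹ := by
    intro X Y
    calc S * X * S⁻¹ * (S * Y * S⁻¹) = S * X * (S⁻¹ * S) * (Y * S⁻¹) := by
          simp only [Matrix.mul_assoc]
      _ = _ := by rw [hSi', Matrix.mul_one]; simp only [Matrix.mul_assoc]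
  have haa : a * a = 0 := by rw [ha, hcj, hz, Matrix.mul_zero, Matrix.zero_mul]
  have hcab : a * aᴴ = aᴴ * a := by rw [hab, ha, hb, hcj, hcj, hc]
  have h1 : aᴴ * a = 0 := by
    have h2 : (aᴴ * a)ᴴ * (aᴴ * a) = 0 := by
      rw [conjTranspose_mul, conjTranspose_conjTranspose]
      calc aᴴ * a * (aᴴ * a) = aᴴ * (a * aᴴ) * a := by simp only [Matrix.mul_assoc]
        _ = aᴴ * (aᴴ * a) * a := by rw [hcab]
        _ = aᴴ * aᴴ * (a * a) := by simp only [Matrix.mul_assoc]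
        _ = 0 := by rw [haa, Matrix.mul_zero]
    exact Matrix.conjTranspose_mul_self_eq_zero.1 h2
  have h3 : a = 0 := Matrix.conjTranspose_mul_self_eq_zero.1 h1
  calc z = (S⁻¹ * S) * z * (S⁻¹ * S) := by rw [hSi', Matrix.one_mul, Matrix.mul_one]
    _ = S⁻¹ * a * S := by rw [ha]; simp only [Matrix.mul_assoc]
    _ = 0 := by rw [h3, Matrix.mul_zero, Matrix.zero_mul]

/-- PRI -/
theorem pri : PriStmt := by
  intro d _ _ M w E V π hX
  apply pri_of
  intro z hz hzz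
  have hr : ∀ γ ∈ M, γ.map (starRingEnd ℂ) = γ := by
    intro γ hγ
    obtain ⟨A, rfl⟩ := hX.int γ hγ
    ext i j
    simp
  obtain ⟨F, hFd⟩ : ∃ F, F = E.map (algebraMap ℚ ℂ) := ⟨_, rfl⟩
  have hFu : IsUnit F.det := by rw [hFd]; exact det_map (det_ne hX.pol)
  have hiso : ∀ X ∈ nilP M, Xᵀ * F + F * X = 0 := by
    rw [hFd]
    exact fun X hXn => nilP_form hX.inv hXn
  have hCc : ∀ B ∈ Cmt M, Cw w π * B = B * Cw w π := by
    intro B hB
    rw [Cw_eq]
    exact hX.tor.2 _ (hz_torus hX.proj hX.fix Complex.I_ne_zero) B hB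
  obtain ⟨c, hc, hs⟩ : ∃ c : ℂ, c * c = 1 ∧ Fᵀ = c • F := by
    refine ⟨(-1) ^ w, by rw [← mul_pow]; norm_num, ?_⟩
    rw [hFd, ← Matrix.transpose_map, hX.pol.symm]
    ext i j
    simp
  have hzs := zt_star hr hz
  obtain ⟨y, hy⟩ : ∃ y, y = adjF F (z.map (starRingEnd ℂ)) := ⟨_, rfl⟩
  have hyZ : y ∈ Zt M := by rw [hy]; exact zt_adj hFu hc hs hiso hzs
  have hFy : F * y = zᴴ * F := by
    rw [hy]
    unfold adjF
    rw [Matrix.mul_assoc F⁻¹, ← Matrix.mul_assoc F, Matrix.mul_nonsing_inv F hFu, Matrix.one_mul]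
    rfl
  have hzy : z * y = y * z := hz.2 y hyZ.1
  have hFCy : F * Cw w π * y = zᴴ * (F * Cw w π) := by
    rw [Matrix.mul_assoc, hCc y hyZ.1, ← Matrix.mul_assoc, hFy, Matrix.mul_assoc]
  rcases Nat.even_or_odd w with hw | hw
  · have hG := MT100GO.H46.gram_even hX.pol hw hX.proj hX.mem
    rw [← hFd] at hG
    exact red_of hG hFCy hzy hzz
  · have hG := gram hX.pol hw hX.proj hX.mem
    rw [← hFd] at hG
    refine red_of hG ?_ hzy hzz
    rw [Matrix.neg_mul, hFCy, Matrix.mul_neg]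

end Pool.Agent.MT100E.H78
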